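import Pool.Agent.Retr.RetR

/-!
# A retract of a real spectrum that is not a real spectrum (negative answer to Q2)
-/

set_option autoImplicit false

universe v

open Retr

/-- There are a commutative ring `R` and a retract `Y` of its real spectrum (a subspace onto which
there is a continuous retraction) homeomorphic to the real spectrum of no commutative ring `S`
(in any universe). Moreover `Y` is a completely normal spectral space and a spectral subspace
(its inclusion pulls compact open sets back to compact open sets). -/
theorem Pool.Agent.Results.MP_f0bf0c_al.RetractOfRealSpectrum.result :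
    ∃ (R : Type) (_ : CommRing R) (Y : Set (Sper R)),
      IsRetract Y ∧
      (∀ (S : Type v) [CommRing S], ¬ Nonempty (Y ≃ₜ Sper S)) ∧
      SpectralSpace Y ∧ ComplNormal Y ∧ IsSpectralMap (Subtype.val : Y → Sper R) := by
  obtain ⟨h1, h2, ⟨e⟩⟩ := retractR ℝ
  refine ⟨A ℝ, inferInstance, _, h1, ?_, ?_, ?_, h2⟩
  · rintro S _ ⟨f⟩
    exact not_sper (e.trans f)
  · exact Pt.spectralSpace_of_homeo e
  · exact Pt.complNormal_of_homeo e
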