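import Mathlib
import Pool.Agent.LRetract.NonRep
import Pool.Agent.LRetract.Spectral

/-!
# A spectral retract of the spectrum of an Abelian lattice-ordered group which is not an
# l-spectrum

The answer to the question about retracts of l-spectra is negative, also for retracts in the
category of spectral spaces and spectral maps.

Idea of the proof. The l-group `H` consists of functions on arcs (indexed by `J` and by
`I = (J -> Par)`) and on sequences `(F, eta, n)`, one for each pair of indices. Along such a
sequence a function is eventually `alpha + beta s_n + gamma t2` where `(t1, t2) = F eta` and `s_n`
increases to `t1`. When `1, t1, t2` are rationally dependent the maximal ideal `M` of the functions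
which tend to zero is strictly larger than the minimal prime `W` of the functions which are
eventually zero. The space `Y` is the spectrum without these points `M`, and the retraction maps
`M` to `W`. If `Y` were the spectrum of an l-group `G`, then the ratios to a unit of the generators
of two open sets would define continuous functions on all arcs; since `J` is large, one can find a
pair of indices such that the two functions agree at `W` and at no point of the sequence, which is
impossible because every compact open set which contains the sequence contains `W`.
-/

namespace Pool.Agent.Results.MP_f0bf0c_al.SpectralRetract

open Pool.Agent.LRetract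

theorem result.{v} :
    ∃ (H : Type) (_ : AddCommGroup H) (_ : Lattice H) (_ : IsOrderedAddMonoid H)
      (Y : Set (SpecL H)) (r : SpecL H → Y),
      SpectralSpace (SpecL H) ∧ SpectralSpace Y ∧
      IsSpectralMap (Subtype.val : Y → SpecL H) ∧ IsSpectralMap r ∧ (∀ y : Y, r y = y) ∧
      ∀ (G : Type v) [AddCommGroup G] [Lattice G] [IsOrderedAddMonoid G],
        IsEmpty (Y ≃ₜ SpecL G) :=
  ⟨H, inferInstance, inferInstance, inferInstance, Pool.Agent.LRetract.Y,
    fun P => ⟨r P, r_mem_Y P⟩, spectralSpace_specH, spectralSpace_Y, isSpectralMap_val,
    isSpectralMap_r, rY_val, fun _ => not_lSpectrum⟩

end Pool.Agent.Results.MP_f0bf0c_al.SpectralRetract
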